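import Pool.Agent.H31.CF.U3

/-!
# Complete family (MP_347b49_nt), row UCFI: invariance of the coefficients and of the central
values under translations, bound
-/

set_option autoImplicit false

open MeasureTheory Set Filter
open scoped Real Matrix MatrixGroups

namespace Pool.Agent.H40.CFU

open Pool.Agent.H31.CN Pool.Agent.H91.CF Pool.Agent.H31.CF

/-- sums over a period do not change under the shift by one -/
theorem rot_sum {M : Type} [AddCommGroup M] (G : ℕ → M) (d : ℕ) (h : G d = G 0) :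
    ∑ j ∈ Finset.range d, G (j + 1) = ∑ j ∈ Finset.range d, G j := by
  have h1 := Finset.sum_range_succ' G d
  have h2 := Finset.sum_range_succ G d
  rw [h1, h] at h2
  exact add_right_cancel h2

theorem np_shift (p : ℕ) (A B C : ℤ) : np p A (B + 2 * A) (A + B + C) = np p A B C := by
  have key : (((Finset.range p).filter (fun j : ℕ =>
        ¬ (p : ℤ) ∣ A * (j : ℤ) ^ 2 + (B + 2 * A) * j + (A + B + C))).card : ℤ) =
      (((Finset.range p).filter (fun j : ℕ =>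
        ¬ (p : ℤ) ∣ A * (j : ℤ) ^ 2 + B * j + C)).card : ℤ) := by
    rw [Finset.natCast_card_filter, Finset.natCast_card_filter]
    have hrot := rot_sum (fun j : ℕ => (if ¬ (p : ℤ) ∣ A * (j : ℤ) ^ 2 + B * j + C then (1 : ℤ)
      else 0)) p (by
        have e : (p : ℤ) ∣ A * (p : ℤ) ^ 2 + B * p + C ↔
            (p : ℤ) ∣ A * ((0 : ℕ) : ℤ) ^ 2 + B * ((0 : ℕ) : ℤ) + C := by
          have e1 : A * (p : ℤ) ^ 2 + B * p + C =
              (p : ℤ) * (A * p + B) + (A * ((0 : ℕ) : ℤ) ^ 2 + B * ((0 : ℕ) : ℤ) + C) := by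
            push_cast
            ring
          rw [e1]
          exact (Int.dvd_add_right (Dvd.intro _ rfl))
        simp only [e])
    rw [← hrot]
    refine Finset.sum_congr rfl fun j _ => ?_
    have e2 : A * (j : ℤ) ^ 2 + (B + 2 * A) * j + (A + B + C) =
        A * ((j + 1 : ℕ) : ℤ) ^ 2 + B * ((j + 1 : ℕ) : ℤ) + C := by
      push_cast
      ring
    rw [e2]
  have key2 := Nat.cast_injective (R := ℤ) key
  unfold np
  rw [key2]

theorem zf_shift (hQDV : T_QDV) (a b X : ℝ) (ha : 0 < a) (n : ℕ) :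
    zf a (b + 2 * a * n) X = zf a b X := by
  induction n with
  | zero => simp
  | succ n ih =>
    have e : b + 2 * a * ((n + 1 : ℕ) : ℝ) = (b + 2 * a * n) + 2 * a := by
      push_cast
      ring
    rw [e, hQDV.2.2.2.1 a (b + 2 * a * n) X ha, ih]

theorem Fgd_shift (hQDV : T_QDV) (g d A : ℕ) (B C : ℤ) (Δ : ℝ) (hd : 0 < d) (hA : 1 ≤ A) :
    Fgd g d Δ ((A : ℤ), B + 2 * A, A + B + C) = Fgd g d Δ ((A : ℤ), B, C) := by
  unfold Fgd
  rw [Finset.sum_filter, Finset.sum_filter]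
  have hd' : (0 : ℝ) < d := by exact_mod_cast hd
  have hA' : (0 : ℝ) < A := by
    have : 0 < A := hA
    exact_mod_cast this
  have hrot := rot_sum (fun j : ℕ => (if IsCoprime (val ((A : ℤ), B, C) ((j : ℤ), 1)) (d : ℤ) then
    zf ((d : ℝ) ^ 2 * ((A : ℤ) : ℝ)) ((d : ℝ) * ((g / d : ℕ) : ℝ) * ((B : ℝ) + 2 * ((A : ℤ) : ℝ) * j))
      ((g : ℝ) ^ 2 * Δ) else 0)) d (by
      have e1 : IsCoprime (val ((A : ℤ), B, C) ((d : ℤ), 1)) (d : ℤ) ↔
          IsCoprime (val ((A : ℤ), B, C) (((0 : ℕ) : ℤ), 1)) (d : ℤ) := by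
        have e2 : val ((A : ℤ), B, C) ((d : ℤ), 1) =
            val ((A : ℤ), B, C) (((0 : ℕ) : ℤ), 1) + (d : ℤ) * (A * d + B) := by
          simp only [val]
          push_cast
          ring
        rw [e2]
        exact IsCoprime.add_mul_left_left_iff
      have e3 : zf ((d : ℝ) ^ 2 * ((A : ℤ) : ℝ))
          ((d : ℝ) * ((g / d : ℕ) : ℝ) * ((B : ℝ) + 2 * ((A : ℤ) : ℝ) * (d : ℕ)))
          ((g : ℝ) ^ 2 * Δ) = zf ((d : ℝ) ^ 2 * ((A : ℤ) : ℝ))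
          ((d : ℝ) * ((g / d : ℕ) : ℝ) * ((B : ℝ) + 2 * ((A : ℤ) : ℝ) * ((0 : ℕ) : ℝ)))
          ((g : ℝ) ^ 2 * Δ) := by
        have e4 : (d : ℝ) * ((g / d : ℕ) : ℝ) * ((B : ℝ) + 2 * ((A : ℤ) : ℝ) * (d : ℕ)) =
            (d : ℝ) * ((g / d : ℕ) : ℝ) * ((B : ℝ) + 2 * ((A : ℤ) : ℝ) * ((0 : ℕ) : ℝ)) +
            2 * ((d : ℝ) ^ 2 * ((A : ℤ) : ℝ)) * ((g / d : ℕ) : ℝ) := by
          rw [Nat.cast_zero]
          ring
        rw [e4]
        exact zf_shift hQDV _ _ _ (by push_cast; positivity) _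
      simp only [e1, e3])
  rw [← hrot]
  refine Finset.sum_congr rfl fun j _ => ?_
  have e5 : val ((A : ℤ), B + 2 * A, A + B + C) ((j : ℤ), 1) =
      val ((A : ℤ), B, C) (((j + 1 : ℕ) : ℤ), 1) := by
    simp only [val]
    push_cast
    ring
  have e6 : ((d : ℝ) * ((g / d : ℕ) : ℝ) * (((B + 2 * A : ℤ) : ℝ) + 2 * ((A : ℤ) : ℝ) * j)) =
      (d : ℝ) * ((g / d : ℕ) : ℝ) * ((B : ℝ) + 2 * ((A : ℤ) : ℝ) * ((j + 1 : ℕ) : ℝ)) := by
    push_cast
    ring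
  simp only [e5, e6]

theorem pf_CFI (hHZ : T_HZ) (hQDV : T_QDV) : T_CFI := by
  constructor
  · intro g d A B C Δ hg hdg hA hΔ
    have hd : 0 < d := Nat.pos_of_dvd_of_pos hdg (Nat.pos_of_ne_zero hg.ne_zero)
    refine ⟨?_, Fgd_shift hQDV g d A B C Δ hd hA⟩
    unfold cf
    simp only [np_shift]
  · intro g d Δ hg hdg hΔ
    obtain ⟨K, k, hK, hHZ⟩ := hHZ
    have hg0 : 0 < g := Nat.pos_of_ne_zero hg.ne_zero
    have hd : 0 < d := Nat.pos_of_dvd_of_pos hdg hg0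
    have hd1 : (1 : ℝ) ≤ d := by exact_mod_cast hd
    have hg1 : (1 : ℝ) ≤ g := by exact_mod_cast hg0
    have hΔ1 : (1 : ℝ) ≤ Δ := by exact_mod_cast hΔ
    have hX : (1 : ℝ) ≤ (g : ℝ) ^ 2 * Δ := one_le_mul_of_one_le_of_one_le (one_le_pow₀ hg1) hΔ1
    refine ⟨d * (K * ((d : ℝ) ^ 2 + (g : ℝ) ^ 2 * Δ) ^ k * 2 ^ k), k, fun A B C hA => ?_⟩
    have hA1 : (1 : ℝ) ≤ A := by exact_mod_cast hA
    have hbd : ∀ b : ℝ, |zf ((d : ℝ) ^ 2 * A) b ((g : ℝ) ^ 2 * Δ)| ≤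
        K * ((d : ℝ) ^ 2 + (g : ℝ) ^ 2 * Δ) ^ k * 2 ^ k * (1 + (A : ℝ)) ^ k := by
      intro b
      obtain ⟨f, -, hf, hb⟩ := hHZ ((d : ℝ) ^ 2 * A) b ((g : ℝ) ^ 2 * Δ)
        (one_le_mul_of_one_le_of_one_le (one_le_pow₀ hd1) hA1) hX
      have h1 := hf 1 one_pos
      have h1S : (1 : ℂ) ∈ Sec := by
        simp [Sec]
      have h2 := hb 1 h1S
      rw [show ((1 : ℝ) : ℂ) = 1 by norm_num] at h1
      rw [h1, Complex.norm_real, Real.norm_eq_abs, mul_one] at h2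
      refine h2.trans ?_
      rw [norm_one, inv_one]
      have h3 : ((d : ℝ) ^ 2 * A + (g : ℝ) ^ 2 * Δ) ^ k ≤
          (((d : ℝ) ^ 2 + (g : ℝ) ^ 2 * Δ) * (1 + (A : ℝ))) ^ k := by
        refine pow_le_pow_left₀ (by positivity) ?_ k
        nlinarith [sq_nonneg (d : ℝ), mul_nonneg (sq_nonneg (g : ℝ)) (by positivity : (0 : ℝ) ≤ (Δ : ℝ)),
          mul_nonneg (mul_nonneg (sq_nonneg (g : ℝ)) (by positivity : (0 : ℝ) ≤ (Δ : ℝ)))
          (by positivity : (0 : ℝ) ≤ (A : ℝ))]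
      calc K * ((d : ℝ) ^ 2 * A + (g : ℝ) ^ 2 * Δ) ^ k * (1 + 1) ^ k
          ≤ K * (((d : ℝ) ^ 2 + (g : ℝ) ^ 2 * Δ) * (1 + (A : ℝ))) ^ k * (1 + 1) ^ k := by gcongr
        _ = K * ((d : ℝ) ^ 2 + (g : ℝ) ^ 2 * Δ) ^ k * 2 ^ k * (1 + (A : ℝ)) ^ k := by
          rw [mul_pow]
          norm_num
          ring
    unfold Fgd
    refine (Finset.abs_sum_le_sum_abs _ _).trans ?_
    calc ∑ j ∈ (Finset.range d).filter
          (fun j : ℕ => IsCoprime (val ((A : ℤ), B, C) ((j : ℤ), 1)) (d : ℤ)),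
          |zf ((d : ℝ) ^ 2 * (((A : ℤ), B, C) : QF).1)
            ((d : ℝ) * ((g / d : ℕ) : ℝ) * ((((A : ℤ), B, C) : QF).2.1 +
              2 * (((A : ℤ), B, C) : QF).1 * j)) ((g : ℝ) ^ 2 * Δ)|
        ≤ ∑ j ∈ (Finset.range d).filter
          (fun j : ℕ => IsCoprime (val ((A : ℤ), B, C) ((j : ℤ), 1)) (d : ℤ)),
          K * ((d : ℝ) ^ 2 + (g : ℝ) ^ 2 * Δ) ^ k * 2 ^ k * (1 + (A : ℝ)) ^ k := by
          refine Finset.sum_le_sum fun j _ => ?_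
          have := hbd ((d : ℝ) * ((g / d : ℕ) : ℝ) * ((((A : ℤ), B, C) : QF).2.1 +
              2 * (((A : ℤ), B, C) : QF).1 * j))
          simpa using this
      _ ≤ d * (K * ((d : ℝ) ^ 2 + (g : ℝ) ^ 2 * Δ) ^ k * 2 ^ k) * (1 + (A : ℝ)) ^ k := by
          rw [Finset.sum_const, nsmul_eq_mul, mul_assoc (d : ℝ)]
          refine mul_le_mul_of_nonneg_right ?_ (by positivity)
          exact_mod_cast (Finset.card_filter_le _ _).trans (Finset.card_range d).le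

end Pool.Agent.H40.CFU
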