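import Pool.Agent.H31.CF.U3

/-!
# Complete family (MP_347b49_nt), row UPOS: the quadratic form of the kernel is positive
-/

set_option autoImplicit false

open MeasureTheory Set Filter
open scoped Real Matrix MatrixGroups

namespace Pool.Agent.H40.CFU

open Pool.Agent.H31.CN Pool.Agent.H91.CF Pool.Agent.H31.CF

/-- the square of an absolutely convergent sum -/
theorem gen_sq {V : Type} (F : V → ℝ) (hF : Summable fun v => ‖F v‖) :
    Summable (fun x : V × V => F x.1 * F x.2) ∧
      ∑' x : V × V, F x.1 * F x.2 = (∑' v, F v) ^ 2 := by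
  constructor
  · exact summable_mul_of_summable_norm hF hF
  · rw [sq, tsum_mul_tsum_of_summable_norm hF hF]

/-- positivity of a quadratic form with a Gram identity -/
theorem gen_POS {V : Type} (K : V → V → ℝ) (φ : ℝ) (n : ℕ) (U : ℕ → ℕ → V) (hφ : 0 < φ)
    (hk : ∀ v v', |K v v'| ≤ 1)
    (hG : ∀ v v', φ * K v v' = ∑ a ∈ Finset.range n, ∑ b ∈ Finset.range n,
      K (U a b) v * K (U a b) v') (h : V → ℝ) (hs : Summable (fun v => |h v|)) :
    (∀ v, Summable fun v' => h v' * K v v') ∧
    Summable (fun v => h v * ∑' v', h v' * K v v') ∧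
    0 ≤ ∑' v, h v * ∑' v', h v' * K v v' ∧
    ∑' x : V × V, h x.1 * h x.2 * K x.1 x.2 = ∑' v, h v * ∑' v', h v' * K v v' := by
  have hs1 : ∀ v, Summable fun v' => h v' * K v v' := by
    intro v
    refine Summable.of_norm_bounded hs fun v' => ?_
    rw [Real.norm_eq_abs, abs_mul]
    exact mul_le_of_le_one_right (abs_nonneg _) (hk v v')
  have hss : Summable fun x : V × V => |h x.1| * |h x.2| :=
    hs.mul_of_nonneg hs (fun _ => abs_nonneg _) (fun _ => abs_nonneg _)
  have hF : Summable fun x : V × V => h x.1 * h x.2 * K x.1 x.2 := by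
    refine Summable.of_norm_bounded hss fun x => ?_
    rw [Real.norm_eq_abs, abs_mul, abs_mul]
    exact mul_le_of_le_one_right (by positivity) (hk x.1 x.2)
  have hin : ∀ v, ∑' v', h v * h v' * K v v' = h v * ∑' v', h v' * K v v' := by
    intro v
    rw [← tsum_mul_left]
    refine tsum_congr fun v' => ?_
    ring
  have hprod : ∑' x : V × V, h x.1 * h x.2 * K x.1 x.2 =
      ∑' v, h v * ∑' v', h v' * K v v' := by
    rw [hF.tsum_prod]
    exact tsum_congr hin
  have houter : Summable fun v => h v * ∑' v', h v' * K v v' := by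
    refine hF.prod.congr fun v => ?_
    exact (hin v)
  refine ⟨hs1, houter, ?_, hprod⟩
  rw [← hprod]
  have hterm : ∀ u : V, Summable fun v => ‖h v * K u v‖ := by
    intro u
    refine Summable.of_norm_bounded hs fun v => ?_
    rw [norm_norm, Real.norm_eq_abs, abs_mul]
    exact mul_le_of_le_one_right (abs_nonneg _) (hk u v)
  have hg := fun u : V => gen_sq (fun v => h v * K u v) (hterm u)
  have hkey : φ * ∑' x : V × V, h x.1 * h x.2 * K x.1 x.2 =
      ∑ a ∈ Finset.range n, ∑ b ∈ Finset.range n, (∑' v, h v * K (U a b) v) ^ 2 := by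
    rw [← tsum_mul_left]
    have e1 : ∀ x : V × V, φ * (h x.1 * h x.2 * K x.1 x.2) =
        ∑ a ∈ Finset.range n, ∑ b ∈ Finset.range n,
          (h x.1 * K (U a b) x.1) * (h x.2 * K (U a b) x.2) := by
      intro x
      have h1 := hG x.1 x.2
      calc φ * (h x.1 * h x.2 * K x.1 x.2)
          = h x.1 * h x.2 * (φ * K x.1 x.2) := by ring
        _ = _ := by
          rw [h1, Finset.mul_sum]
          refine Finset.sum_congr rfl fun a _ => ?_
          rw [Finset.mul_sum]
          refine Finset.sum_congr rfl fun b _ => ?_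
          ring
    rw [tsum_congr e1, Summable.tsum_finsetSum fun a _ => summable_sum fun b _ => (hg _).1]
    refine Finset.sum_congr rfl fun a _ => ?_
    rw [Summable.tsum_finsetSum fun b _ => (hg _).1]
    refine Finset.sum_congr rfl fun b _ => ?_
    exact (hg _).2
  have h0 : 0 ≤ φ * ∑' x : V × V, h x.1 * h x.2 * K x.1 x.2 := by
    rw [hkey]
    exact Finset.sum_nonneg fun a _ => Finset.sum_nonneg fun b _ => sq_nonneg _
  exact nonneg_of_mul_nonneg_right h0 hφ

theorem pf_POS (hKIN : T_KIN) (hGRM : T_GRM) : T_POS := by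
  intro f Q h hf hs
  have hk : ∀ v v' : ℤ × ℤ, |kern f Q v v'| ≤ 1 := fun v v' => (hKIN f Q v v' hf).2.2.1
  exact gen_POS (fun v v' => kern f Q v v') (Nat.totient f) f (fun a b => ((a : ℤ), (b : ℤ)))
    (by exact_mod_cast Nat.totient_pos.2 hf) hk (fun v v' => hGRM f Q v v' hf) h hs

end Pool.Agent.H40.CFU
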